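import Pool.Agent.Results.MP_c25fd9_nt.AllOneModFour

/-!
# `Σ (q;q^2)_k^2 (q^2;q^4)_k q^{2k} / ((q^2;q^2)_k^2 (q^4;q^4)_k)` modulo `Φ_n(q)^2`, `n ≡ 3 (mod 4)`
-/

set_option autoImplicit false

namespace Pool.Agent.Results.MP_5ca353_nt.BothTruncations

open Finset Polynomial

noncomputable section

/-- The indeterminate `q`, as an element of `ℚ(q)`. -/
def q : RatFunc ℚ := RatFunc.X

/-- The q-Pochhammer symbol `(a; x)_k = (1 - a)(1 - a x) ⋯ (1 - a x^{k-1})`. -/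
def qp (a x : RatFunc ℚ) (k : ℕ) : RatFunc ℚ := ∏ j ∈ range k, (1 - a * x ^ j)

/-- `A_k(q)`. -/
def A (k : ℕ) : RatFunc ℚ := qp q (q ^ 2) k / qp (q ^ 2) (q ^ 2) k

/-- `B_k(q)`. -/
def B (k : ℕ) : RatFunc ℚ := qp (q ^ 2) (q ^ 4) k / qp (q ^ 4) (q ^ 4) k

/-- `c_k(q)`. -/
def c (k : ℕ) : RatFunc ℚ := A k ^ 2 * B k * q ^ (2 * k)

/-- The sum `S_N(q)` over `0 ≤ k ≤ N`. -/
def S (N : ℕ) : RatFunc ℚ := ∑ k ∈ range (N + 1), c k

/-- `F ≡ 0 (mod Φ^2)`: the reduced denominator of `F` is coprime to `Φ^2`, and `Φ^2` divides the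
reduced numerator. -/
def ZeroSq (Φ : ℚ[X]) (F : RatFunc ℚ) : Prop := IsCoprime F.denom (Φ ^ 2) ∧ Φ ^ 2 ∣ F.num

open Pool.Agent.X14 QL QBlock
open Pool.Agent.Results.MP_c25fd9_nt.AllOneModFour (term V g2 GG)

lemma c_eq (k : ℕ) : c k = term k := by
  rw [← Pool.Agent.Results.MP_c25fd9_nt.AllOneModFour.a_eq]
  unfold c A B Pool.Agent.Results.MP_c25fd9_nt.AllOneModFour.a Pool.Agent.Results.MP_c25fd9_nt.AllOneModFour.q
    Pool.Agent.Results.MP_c25fd9_nt.AllOneModFour.qp qp q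
  rw [div_pow]
  ring

variable {n h : ℕ}

lemma V_even (hn : n = 2 * h + 1) (ν : ℕ) (hh : h % 2 = 1) : V n h (2 * ν) = 0 := by
  obtain ⟨m, hm⟩ : ∃ m, n * (2 * ν) + h = 2 * m + 1 := ⟨n * ν + h / 2, by
    rw [Nat.mul_add, show n * (2 * ν) = 2 * (n * ν) by ring]; omega⟩
  unfold V
  rw [hm, QAndrews.S_odd (pow_ne_zero _ q_ne) Pool.Agent.Results.MP_c25fd9_nt.AllOneModFour.hq1]

lemma V_odd (hn : n = 2 * h + 1) (ν : ℕ) (hh : h % 2 = 1) :
    V n h (2 * ν + 1) = QL.q ^ (n * (2 * ν + 1) + h) * GG (n * (2 * ν + 1) + h) ^ 2 := by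
  obtain ⟨m, hm⟩ : ∃ m, n * (2 * ν + 1) + h = 2 * m := ⟨n * ν + h + (h + 1) / 2, by
    rw [Nat.mul_add, Nat.mul_add, show n * (2 * ν) = 2 * (n * ν) by ring]; omega⟩
  unfold V
  rw [hm, QAndrews.S_even (pow_ne_zero _ q_ne) Pool.Agent.Results.MP_c25fd9_nt.AllOneModFour.hq1,
    Pool.Agent.Results.MP_c25fd9_nt.AllOneModFour.GG_eq, ← pow_mul]

lemma g2_mem (hn : n = 2 * h + 1) {i : ℕ} (hi : i < h) : g2 i ∈ Loc (cyclotomic n ℚ) := by
  have h0 : ¬ (n : ℤ) ∣ (2 : ℕ) * ((i : ℤ) + 1) := not_dvd_mul (QLiu.cop2 hn) (small_not_dvd hn hi)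
  unfold g2
  split_ifs
  · exact e_mem (by omega) _
  · exact e_inv (by omega) h0

lemma GG_QO (hn : n = 2 * h + 1) (ν : ℕ) : QO (cyclotomic n ℚ) 1 (GG (n * (2 * ν + 1) + h)) := by
  have hn0 : 0 < n := by omega
  induction ν with
  | zero =>
    have h1 : GG (n * (2 * 0 + 1) + h) = GG h * ∏ t ∈ range n, g2 (n * 0 + h + t) := by
      unfold GG
      rw [show n * (2 * 0 + 1) + h = h + n by ring, prod_range_add]
      simp
    rw [h1, Pool.Agent.Results.MP_c25fd9_nt.AllOneModFour.blk_even hn 0 rfl]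
    have h2 : GG h ∈ Loc (cyclotomic n ℚ) := by
      unfold GG
      exact (Loc _).prod_mem (fun i hi => g2_mem hn (mem_range.1 hi))
    exact QO.mul_left h2 (QO.mul_right (e_QO hn0 (dvd_mul_left _ _)) (QLiu.DD_mem hn (s := 2) (QLiu.cop2 hn) _).1)
  | succ ν ih =>
    have h1 : GG (n * (2 * (ν + 1) + 1) + h) = GG (n * (2 * ν + 1) + h) *
      ((∏ t ∈ range n, g2 (n * (2 * ν + 1) + h + t)) * ∏ t ∈ range n, g2 (n * (2 * ν + 2) + h + t)) := by
      have h1 : n * (2 * (ν + 1) + 1) + h = n * (2 * ν + 1) + h + (n + n) := by ring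
      have h2 : ∀ t, g2 (n * (2 * ν + 1) + h + (n + t)) = g2 (n * (2 * ν + 2) + h + t) := by
        intro t; congr 1; ring
      unfold GG
      rw [h1, prod_range_add, prod_range_add _ n n]
      simp only [h2]
    rw [h1, Pool.Agent.Results.MP_c25fd9_nt.AllOneModFour.blk_odd hn (2 * ν + 1) (by omega),
      Pool.Agent.Results.MP_c25fd9_nt.AllOneModFour.blk_even hn (2 * ν + 2) (by omega)]
    refine QO.mul_right ih ?_
    have h3 := e_ratio (n := n) (s := 1) hn0 one_pos (2 * (((2 * ν + 2 : ℕ) : ℤ) + 1)) (d := 2 * (((2 * ν + 1 : ℕ) : ℤ) + 1)) (by omega)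
    have h4 := h3.mem (rat_mem _ _)
    rw [Nat.cast_one, one_mul, one_mul] at h4
    have h5 := (QLiu.DD_mem hn (s := 2) (QLiu.cop2 hn) (2 * (((2 * ν + 1 : ℕ) : ℤ) + 1))).2
    have h6 := (QLiu.DD_mem hn (s := 2) (QLiu.cop2 hn) (2 * (((2 * ν + 2 : ℕ) : ℤ) + 1))).1
    have h7 := (Loc _).mul_mem h4 ((Loc _).mul_mem h5 h6)
    convert h7 using 1
    rw [div_eq_mul_inv]
    ring

lemma V_QO (hn : n = 2 * h + 1) (hh : h % 2 = 1) (μ : ℕ) : QO (cyclotomic n ℚ) 2 (V n h μ) := by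
  rcases Nat.mod_two_eq_zero_or_one μ with h2 | h2
  · obtain ⟨ν, rfl⟩ : ∃ ν, μ = 2 * ν := ⟨μ / 2, by omega⟩
    rw [V_even hn ν hh]
    exact QO.zero _
  · obtain ⟨ν, rfl⟩ : ∃ ν, μ = 2 * ν + 1 := ⟨μ / 2, by omega⟩
    rw [V_odd hn ν hh, pow_two]
    exact QO.mul_left ((Loc _).pow_mem (q_mem _) _) ((GG_QO hn ν).mul (GG_QO hn ν))

theorem blocks_zero (hn : n = 2 * h + 1) (hh : h % 2 = 1) (J : ℕ) :
    QO (cyclotomic n ℚ) 2 (∑ l ∈ range n, term (n * J + l)) := by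
  have := tri (P := cyclotomic n ℚ) (k := 2) (C := 0) (w := fun μ J => wo (2 * (μ : ℤ) + 1) J) (b := QLiu.b)
    (v := Pool.Agent.Results.MP_c25fd9_nt.AllOneModFour.v) (V := V n h)
    (B := fun J => ∑ l ∈ range n, term (n * J + l)) ?_ Pool.Agent.Results.MP_c25fd9_nt.AllOneModFour.classical (fun μ => by
      unfold Eqm; rw [zero_mul, sub_zero]; exact V_QO hn hh μ) ?_ J
  · unfold Eqm at this
    rwa [zero_mul, sub_zero] at this
  · intro μ
    have h1 := block_main (P := cyclotomic n ℚ) (k := 2) (n := n) (term := term) (W := Po 1 n (2 * μ + 1)) (h := h) (μ := μ)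
      (w := fun J => wo (2 * (μ : ℤ) + 1) J)
      (fun J l hl => (Pool.Agent.Results.MP_c25fd9_nt.AllOneModFour.term_mem hn J hl).1)
      (fun J l hl hl' => (Pool.Agent.Results.MP_c25fd9_nt.AllOneModFour.term_mem hn J hl').2 hl)
      (fun J l _ hl => Po_mem (by omega) one_pos (Nat.coprime_one_left n) _ _)
      (fun J l _ hl _ => Po_eqm hn one_pos (Nat.coprime_one_left n) _ J hl)
    rw [Pool.Agent.Results.MP_c25fd9_nt.AllOneModFour.exact n μ h hn] at h1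
    exact h1.symm
  · intro μ
    exact wo_ne (fun i hi => by omega) (by omega)

lemma zeroSq_of_QO {Φ : ℚ[X]} {f : RatFunc ℚ} (h : QO Φ 2 f) : ZeroSq Φ f := by
  obtain ⟨h1, h2⟩ := h.num_denom
  exact ⟨h2, h1⟩

/-- **Full positive answer to Q1**: for every positive `n ≡ 3 (mod 4)` and every `r ≥ 1`, both
truncations `S_{rn-1}(q)` and `S_{rn+(n-1)/2}(q)` are `≡ 0` modulo `Φ_n(q)^2`. -/
theorem result (n r : ℕ) (hn : n % 4 = 3) (hr : 1 ≤ r) :
    ZeroSq (cyclotomic n ℚ) (S (r * n - 1)) ∧ ZeroSq (cyclotomic n ℚ) (S (r * n + (n - 1) / 2)) := by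
  obtain ⟨h, hh⟩ : ∃ h, n = 2 * h + 1 := ⟨n / 2, by omega⟩
  have hA : ∀ m : ℕ, QO (cyclotomic n ℚ) 2 (∑ k ∈ range (m * n), term k) := by
    intro m
    rw [mul_comm m n, sum_range_blocks]
    exact QO.sum (fun J _ => blocks_zero hh (by omega) J)
  constructor
  · apply zeroSq_of_QO
    unfold S
    rw [Nat.sub_add_cancel (Nat.mul_pos hr (by omega))]
    simp only [c_eq]
    exact hA r
  · apply zeroSq_of_QO
    unfold S
    simp only [c_eq]
    have e1 : (n - 1) / 2 = h := by omega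
    rw [e1]
    have h1 := hA (r + 1)
    have e2 : (r + 1) * n = r * n + h + 1 + h := by rw [hh]; ring
    rw [e2, sum_range_add] at h1
    have h2 : QO (cyclotomic n ℚ) 2 (∑ x ∈ range h, term (r * n + h + 1 + x)) := by
      apply QO.sum
      intro x hx
      rw [mem_range] at hx
      have := (Pool.Agent.Results.MP_c25fd9_nt.AllOneModFour.term_mem hh r (l := h + 1 + x) (by omega)).2 (by omega)
      rwa [mul_comm n r, ← add_assoc, ← add_assoc] at this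
    have h3 := h1.sub h2
    rwa [add_sub_cancel_right] at h3

end

end Pool.Agent.Results.MP_5ca353_nt.BothTruncations
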